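import Pool.Agent.Lib.MP_245544_coI.Main2
import Pool.Agent.Lib.MP_245544_coI.LogAsy
import Pool.Agent.Lib.MP_245544_coL.FamG
import Pool.Agent.Lib.MP_245544_coV.AsyV

/-! MP_245544_co: upper and lower bounds with iterated logarithms for arbitrary (Jordan arc) drawings in
which any two crossing edges are far apart. The definitions `Drawing`, `Drawing.Cross`, `EdgeDistGE`,
`Drawing.CrossingsFar` and `maxEdges` are in `Pool.Agent.Lib.MP_245544_coT.Defs`. -/

namespace Pool.Agent.Results.MP_245544_co.IteratedLogTwoSided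

open Pool.Agent.MP_245544_coT Asymptotics Filter

/-- Let `maxEdges k n` be the maximum number of edges of an `n`-vertex graph that has a drawing with Jordan
arcs in which any two crossing edges are at distance at least `k`. For `k ≥ 2 ^ (j + 1) + 3` it is
`O(n log^(j) n)`, for `k ≥ 3 * 2 ^ j + 3` it is `O(n log^(j) n / log^(j+1) n)`, and for `k ≤ 2 ^ (j + 1)` it
is at least a constant times `n log^(j) n / log^(j+1) n`. In particular the function `f` of the question
(`k = 100`) lies between `n log^(6) n / log^(7) n` and `n log^(5) n / log^(6) n` up to constants. -/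
theorem result :
    (∀ j k : ℕ, 1 ≤ j → 2 ^ (j + 1) + 3 ≤ k →
      (fun n : ℕ => (maxEdges k n : ℝ)) =O[atTop] (fun n : ℕ => (n : ℝ) * Real.log^[j] (n : ℝ))) ∧
    (∀ j k : ℕ, 1 ≤ j → 3 * 2 ^ j + 3 ≤ k →
      (fun n : ℕ => (maxEdges k n : ℝ)) =O[atTop]
        (fun n : ℕ => (n : ℝ) * (Real.log^[j] (n : ℝ) / Real.log^[j + 1] (n : ℝ)))) ∧
    (∀ j k : ℕ, 2 ≤ j → k ≤ 2 ^ (j + 1) →
      (fun n : ℕ => (n : ℝ) * (Real.log^[j] (n : ℝ) / Real.log^[j + 1] (n : ℝ))) =O[atTop]
        (fun n : ℕ => (maxEdges k n : ℝ))) ∧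
    (fun n : ℕ => (maxEdges 100 n : ℝ)) =O[atTop]
      (fun n : ℕ => (n : ℝ) * (Real.log^[5] (n : ℝ) / Real.log^[6] (n : ℝ))) ∧
    (fun n : ℕ => (n : ℝ) * (Real.log^[6] (n : ℝ) / Real.log^[7] (n : ℝ))) =O[atTop]
      (fun n : ℕ => (maxEdges 100 n : ℝ)) := by
  have main : ∀ j k : ℕ, 1 ≤ j → 2 ^ (j + 1) + 3 ≤ k →
      (fun n : ℕ => (maxEdges k n : ℝ)) =O[atTop] (fun n : ℕ => (n : ℝ) * Real.log^[j] (n : ℝ)) := by
    intro j k hj hk
    obtain ⟨C, hC⟩ := maxEdges_iter' hj hk
    have h1 : (fun n : ℕ => (maxEdges k n : ℝ)) =O[atTop]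
        (fun n : ℕ => (n : ℝ) * (1 + (((Nat.log 2)^[j] n : ℕ) : ℝ))) := by
      refine IsBigO.of_bound C (Eventually.of_forall fun n => ?_)
      rw [Real.norm_of_nonneg (Nat.cast_nonneg _), Real.norm_of_nonneg (by positivity)]
      have h2 : ((maxEdges k n : ℕ) : ℝ) ≤ ((C * n * (1 + (Nat.log 2)^[j] n) : ℕ) : ℝ) := by
        exact_mod_cast hC n
      push_cast at h2
      linarith
    refine h1.trans ((isBigO_refl _ _).mul (IsBigO.add ?_ (natLog_iter_isBigO j)))
    refine IsBigO.of_bound 1 ?_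
    filter_upwards [(tendsto_log_iter j).eventually_ge_atTop 1] with n hn
    rw [Real.norm_of_nonneg zero_le_one, Real.norm_of_nonneg (by linarith)]
    linarith
  exact ⟨main, fun j k hj hk => maxEdges_isBigO_div hj hk,
    fun j k hj hk => Pool.Agent.MP_245544_coL.lower_grid hj hk,
    maxEdges_isBigO_div (j := 5) (k := 100) (by norm_num) (by norm_num),
    Pool.Agent.MP_245544_coL.lower_grid (j := 6) (k := 100) (by norm_num) (by norm_num)⟩

end Pool.Agent.Results.MP_245544_co.IteratedLogTwoSided
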